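import Pool.Agent.Helper64.FL.StH

set_option autoImplicit false

namespace Pool.Agent.Helper64.FL

open Pool.Agent.Helper64.CT Pool.Agent.Helper64.DT
open Pool.Agent.Helper64.HG (Ovl Model Circ IC HellyCircle ChordModel)

theorem st_JIN : ST_JIN := by
  intro V G A
  induction A with
  | nil => intro B _ hB _; exact hB
  | cons a l ih =>
    intro B hA hB h
    obtain ⟨h1, h2, h3, h4⟩ := hA
    cases l with
    | nil =>
      refine ⟨?_, ?_, ?_, hB⟩
      · intro x hx
        exact (h a (by simp) x (by simpa using hx)).1
      · intro b hb
        have hb' : B.head? = some b := by simpa using hb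
        have hbB : b ∈ B := List.mem_of_head? hb'
        exact (h a (by simp) b hbB).2.2 ⟨by simp, hb'⟩
      · intro x hx hax
        cases B with
        | nil => simp at hx
        | cons b B' =>
          have hx' : x ∈ B' := by simpa using hx
          have h5 := (h a (by simp) x (by simp [hx'])).2.1 hax
          have h6 : b = x := by simpa using h5.2
          exact hB.1 x hx' h6
    | cons c l' =>
      have hal : a ∉ c :: l' := fun hm => h1 a hm rfl
      refine ⟨?_, ?_, ?_, ?_⟩
      · intro x hx
        have hx2 : x ∈ (c :: l') ∨ x ∈ B := List.mem_append.1 hx
        rcases hx2 with hx | hx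
        · exact h1 x hx
        · exact (h a (by simp) x hx).1
      · intro b hb
        exact h2 b (by simpa using hb)
      · intro x hx hax
        have hx2 : x ∈ l' ∨ x ∈ B := by simpa using hx
        rcases hx2 with hx | hx
        · exact h3 x (by simpa using hx) hax
        · have h5 := (h a (by simp) x hx).2.1 hax
          have h6 : (c :: l').getLast? = some a := by
            have h7 := h5.1
            rwa [List.getLast?_cons_cons] at h7
          exact hal (List.mem_of_getLast? h6)
      · refine ih B h4 hB ?_
        intro u hu w hw
        have h5 := h u (by simp only [List.mem_cons] at hu ⊢; exact Or.inr hu) w hw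
        rwa [List.getLast?_cons_cons] at h5

end Pool.Agent.Helper64.FL
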