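import Pool.Agent.Helper64.FL.StC

/-! Full list for MP_866009_co: minimal connected sets (MNT). -/

set_option autoImplicit false

namespace Pool.Agent.Helper64.FL

open Pool.Agent.Helper64.CT Pool.Agent.Helper64.DT
open Pool.Agent.Helper64.HG (Ovl Model Circ IC HellyCircle ChordModel)

/-- a set contains connected neighbours of the three vertices -/
def mnt_good {V : Type} (G : SimpleGraph V) (x y z : V) (T : Set V) : Prop :=
  ∃ a b c, G.Adj x a ∧ G.Adj y b ∧ G.Adj z c ∧ Cn G T a b ∧ Cn G T a c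

theorem mnt_inner {V : Type} (G : SimpleGraph V) (T : Set V) (a u : V) (h : Cn G T a u) :
    Cn G {w | Cn G T a w} a u := by
  obtain ⟨ha, hr⟩ := h
  refine ⟨⟨ha, Relation.ReflTransGen.refl⟩, ?_⟩
  induction hr with
  | refl => exact Relation.ReflTransGen.refl
  | tail hab hbc ih => exact ih.tail ⟨hbc.1, ⟨ha, hab.tail hbc⟩⟩

theorem st_MNT (h1 : ST_CNB) : ST_MNT := by
  intro V _ G S x y z a0 b0 c0 hxa hyb hzc hab hac
  classical
  have hex : ∃ n : ℕ, ∃ T : Set V, T ⊆ S ∧ mnt_good G x y z T ∧ T.ncard = n :=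
    ⟨S.ncard, S, subset_rfl, ⟨a0, b0, c0, hxa, hyb, hzc, hab, hac⟩, rfl⟩
  obtain ⟨T, hTS, ⟨a, b, c, ha, hb, hc, hTb, hTc⟩, hTn⟩ := Nat.find_spec hex
  have hmin : ∀ T' : Set V, T' ⊆ T → mnt_good G x y z T' → T' = T := by
    intro T' hT' hg
    have hle : T.ncard ≤ T'.ncard := by
      rw [hTn]
      exact Nat.find_min' hex ⟨T', hT'.trans hTS, hg, rfl⟩
    exact Set.eq_of_subset_of_ncard_le hT' hle (Set.toFinite T)
  obtain ⟨h11, -, -, -, -, -, -⟩ := h1 V G
  have hK : {w | Cn G T a w} = T := by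
    refine hmin _ (fun w hw => (h11 T a w hw).1) ⟨a, b, c, ha, hb, hc, ?_, ?_⟩
    · exact mnt_inner G T a b hTb
    · exact mnt_inner G T a c hTc
  refine ⟨T, a, b, c, hTS, ⟨hTb.1, (h11 T a b hTb).1, (h11 T a c hTc).1, ha, hb, hc, ?_, ?_⟩⟩
  · intro u hu
    rw [← hK] at hu
    exact hu
  · intro T' hT' a' b' c' ha' hb' hc' hab' hac'
    exact hmin T' hT' ⟨a', b', c', ha', hb', hc', hab', hac'⟩

end Pool.Agent.Helper64.FL
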